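import Pool.Agent.Helper58.FL.Tools

/-!
# Filling boundaries, elementwise
-/

open CategoryTheory MonoidalCategory Simplicial Opposite

set_option autoImplicit false

namespace FL68

lemma yo_app {B : SSet.{0}} {n : ℕ} (b : Δ[n] ⟶ B) (l : SimplexCategory) (α : l ⟶ ⦋n⦌) :
    b.app (op l) (SSet.stdSimplex.objEquiv.symm α) = B.map α.op (SSet.yonedaEquiv b) := by
  obtain ⟨y, rfl⟩ := SSet.yonedaEquiv.symm.surjective b
  rw [Equiv.apply_symm_apply]
  rfl

/-- The boundary filling property of `p`, elementwise. -/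
def BdFill {E B : SSet.{0}} (p : E ⟶ B) (n : ℕ) : Prop :=
  ∀ (e : ∀ (l : SimplexCategory) (α : l ⟶ ⦋n⦌), ¬ Function.Surjective α.toOrderHom →
      E.obj (op l))
    (_ : ∀ (l l' : SimplexCategory) (α : l ⟶ ⦋n⦌) (β : l' ⟶ l)
      (h : ¬ Function.Surjective α.toOrderHom)
      (h' : ¬ Function.Surjective (β ≫ α).toOrderHom), E.map β.op (e l α h) = e l' (β ≫ α) h')
    (y : B.obj (op ⦋n⦌))
    (_ : ∀ (l : SimplexCategory) (α : l ⟶ ⦋n⦌) (h : ¬ Function.Surjective α.toOrderHom),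
      p.app (op l) (e l α h) = B.map α.op y),
    ∃ x : E.obj (op ⦋n⦌), p.app _ x = y ∧
      ∀ (l : SimplexCategory) (α : l ⟶ ⦋n⦌) (h : ¬ Function.Surjective α.toOrderHom),
        E.map α.op x = e l α h

theorem bdFill_of_lift {E B : SSet.{0}} {p : E ⟶ B} {n : ℕ}
    (hp : HasLiftingProperty (∂Δ[n].ι : (∂Δ[n] : SSet.{0}) ⟶ Δ[n]) p) : BdFill p n := by
  intro e he y hy
  let t : (∂Δ[n] : SSet.{0}) ⟶ E :=
    { app := fun m => ↾ fun (s : (∂Δ[n] : SSet.{0}).obj m) =>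
        e m.unop (SSet.stdSimplex.objEquiv s.1) s.2
      naturality := fun m m' γ => by
        ext s
        exact (he m.unop m'.unop (SSet.stdSimplex.objEquiv s.1) γ.unop s.2 _).symm }
  let b : Δ[n] ⟶ B := SSet.yonedaEquiv.symm y
  have sq : CommSq t (∂Δ[n].ι : (∂Δ[n] : SSet.{0}) ⟶ Δ[n]) p b := ⟨by
    ext m s
    exact hy m.unop (SSet.stdSimplex.objEquiv s.1) s.2⟩
  refine ⟨SSet.yonedaEquiv sq.lift, ?_, ?_⟩
  · have h := congrArg SSet.yonedaEquiv sq.fac_right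
    exact h.trans (Equiv.apply_symm_apply _ _)
  · intro l α h
    have h1 := congrArg (fun f : (∂Δ[n] : SSet.{0}) ⟶ E =>
      f.app (op l) ⟨SSet.stdSimplex.objEquiv.symm α, h⟩) sq.fac_left
    exact (yo_app sq.lift l α).symm.trans h1

theorem lift_of_bdFill {E B : SSet.{0}} {p : E ⟶ B} {n : ℕ} (hp : BdFill p n) :
    HasLiftingProperty (∂Δ[n].ι : (∂Δ[n] : SSet.{0}) ⟶ Δ[n]) p := by
  refine ⟨fun {t b} sq => ?_⟩
  obtain ⟨x, hx1, hx2⟩ := hp
    (fun l α h => t.app (op l) ⟨SSet.stdSimplex.objEquiv.symm α, h⟩)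
    (fun l l' α β h h' => (FL.sset_nat t β.op _).symm)
    (SSet.yonedaEquiv b)
    (fun l α h => by
      have h1 := congrArg (fun f : (∂Δ[n] : SSet.{0}) ⟶ B =>
        f.app (op l) ⟨SSet.stdSimplex.objEquiv.symm α, h⟩) sq.w
      exact h1.trans (yo_app b l α))
  refine ⟨⟨⟨SSet.yonedaEquiv.symm x, ?_, ?_⟩⟩⟩
  · ext m s
    exact hx2 m.unop (SSet.stdSimplex.objEquiv s.1) s.2
  · rw [SSet.yonedaEquiv_symm_comp, hx1, Equiv.symm_apply_apply]

end FL68
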